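import Pool.Agent.Run7.h464.QI.CEN
import Pool.Agent.Run7.h824.QI.EXT
import Pool.Agent.Run7.h824.QI.GS
import Pool.Agent.Run7.h354.QI.NUM
import Pool.Agent.Run7.h198.QI.UP1
import Pool.Agent.Run7.h198.QI.UP
import Pool.Agent.Run7.h198.QI.Fin

set_option autoImplicit false

/-!
# The order of growth of the largest r-fold qualitatively independent families

`QI` and `Mr` are defined in `Pool.Agent.Run7.h198.QI.Defs`.
-/

namespace Pool.Agent.Results.MP_eaaa35_co.OrderOfGrowth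

open Pool.Agent.Run7.h198.QI

/-- For `r ≥ 1` and `n ≥ 4 r` the maximum `M_r(n)` is between two constant multiples of
`C(n, n/2) / n ^ (r - 1)`. -/
theorem result : ∀ r n : ℕ, 1 ≤ r → 4 * r ≤ n →
    n.choose (n / 2) ≤ 4 ^ r * 2 ^ (r - 1) * n ^ (r - 1) * Mr r n ∧
    n ^ (r - 1) * Mr r n ≤ 2 * 4 ^ (r - 1) * (r - 1).factorial * n.choose (n / 2) :=
  fin (t_UP t_UP1) Pool.Agent.Run7.h824.QI.t_GS Pool.Agent.Run7.h824.QI.t_EXT
    Run7.h464.QI.t_CEN Run7.h354.QI.t_NUM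

end Pool.Agent.Results.MP_eaaa35_co.OrderOfGrowth
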